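import Pool.Agent.Y180.TK.Pt2

set_option autoImplicit false

/-!
Project TK, part PT: the limit of the exponent near the maximum.
-/

namespace Pool.Agent.Y180.TK

open Filter Topology MeasureTheory Set
open Pool.Agent.Y472.K
open scoped Real

lemma lsin_int (a b : ℝ) :
    IntervalIntegrable (fun t => Real.log (2 * Real.sin (π * t))) volume a b := by
  have h : MeromorphicOn (fun t : ℝ => 2 * Real.sin (π * t)) (Set.uIcc a b) := by
    intro t _
    exact AnalyticAt.meromorphicAt (by fun_prop)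
  exact h.intervalIntegrable_log

lemma Lc_exp {d : ℝ} (h0 : 0 < d) (h1 : d < 1) {h : ℕ → ℝ} {α : ℝ} (hh : Rt h α) :
    Tendsto (fun N : ℕ => (N : ℝ) * (Lc (d + h N) - Lc d + Real.log (2 * Real.sin (π * d)) * h N))
      atTop (𝓝 (-(π * Real.cos (π * d) / Real.sin (π * d) * α ^ 2 / 2))) := by
  have hs : ∀ t : ℝ, 0 < t → t < 1 → 0 < Real.sin (π * t) := by
    intro t ht0 ht1
    apply Real.sin_pos_of_pos_of_lt_pi
    · positivity
    · nlinarith [Real.pi_pos]
  have hd : HasDerivAt (fun t => Real.log (2 * Real.sin (π * t)))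
      (π * Real.cos (π * d) / Real.sin (π * d)) d := by
    have e1 : HasDerivAt (fun t : ℝ => π * t) π d := by
      simpa using (hasDerivAt_id d).const_mul π
    have e2 := (e1.sin.const_mul 2).log (by have := hs d h0 h1; positivity)
    refine e2.congr_deriv ?_
    have := (hs d h0 h1).ne'
    field_simp
  have hc : ∀ᶠ t in 𝓝 d, ContinuousAt (fun t => Real.log (2 * Real.sin (π * t))) t := by
    filter_upwards [Ioo_mem_nhds h0 h1] with t ht
    apply ContinuousAt.log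
    · fun_prop
    · have := hs t ht.1 ht.2
      positivity
  have h2 := (int2 hd hc hh).neg
  refine h2.congr fun N => ?_
  have h3 := intervalIntegral.integral_add_adjacent_intervals (lsin_int 0 d) (lsin_int d (d + h N))
  unfold Lc
  rw [← h3]
  ring

section forms
variable {n : ℕ}

/-- the variables of the upper indices -/
noncomputable def zz (r : Fin n) : ((Fin n ⊕ Fin n → ℝ) × ℝ) →ₗ[ℝ] ℝ :=
  (LinearMap.proj (Sum.inl r)) ∘ₗ (LinearMap.fst ℝ _ _)

/-- the variables of the lower indices -/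
noncomputable def ze (r : Fin n) : ((Fin n ⊕ Fin n → ℝ) × ℝ) →ₗ[ℝ] ℝ :=
  (LinearMap.proj (Sum.inr r)) ∘ₗ (LinearMap.fst ℝ _ _)

/-- the last variable -/
noncomputable def xx : ((Fin n ⊕ Fin n → ℝ) × ℝ) →ₗ[ℝ] ℝ := LinearMap.snd ℝ _ _

lemma zz_apply (r : Fin n) (v : (Fin n ⊕ Fin n → ℝ) × ℝ) : zz r v = v.1 (Sum.inl r) := rfl
lemma ze_apply (r : Fin n) (v : (Fin n ⊕ Fin n → ℝ) × ℝ) : ze r v = v.1 (Sum.inr r) := rfl
lemma xx_apply (v : (Fin n ⊕ Fin n → ℝ) × ℝ) : xx v = v.2 := rfl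

variable [NeZero n]

/-- the real quadratic form -/
noncomputable def RQ (n : ℕ) [NeZero n] (c κ A : ℝ) :
    QuadraticForm ℝ ((Fin n ⊕ Fin n → ℝ) × ℝ) :=
  ∑ r : Fin n, (c • (QuadraticMap.linMulLin (zz r - ze r) (zz r - ze r) +
      QuadraticMap.linMulLin (zz (r + 1) - ze r) (zz (r + 1) - ze r)) +
    κ • (QuadraticMap.linMulLin (zz (r + 1)) (zz (r + 1)) + QuadraticMap.linMulLin (ze r) (ze r)) +
    A • QuadraticMap.linMulLin xx xx)

lemma RQ_apply (c κ A : ℝ) (v : (Fin n ⊕ Fin n → ℝ) × ℝ) : RQ n c κ A v =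
    ∑ r : Fin n, (c * ((v.1 (Sum.inl r) - v.1 (Sum.inr r)) ^ 2 +
      (v.1 (Sum.inl (r + 1)) - v.1 (Sum.inr r)) ^ 2) +
      κ * (v.1 (Sum.inl (r + 1)) ^ 2 + v.1 (Sum.inr r) ^ 2) + A * v.2 ^ 2) := by
  unfold RQ
  rw [sum_apply]
  refine Finset.sum_congr rfl fun r _ => ?_
  simp only [add_apply, smul_apply, QuadraticMap.linMulLin_apply,
    LinearMap.sub_apply, zz_apply, ze_apply, xx_apply, smul_eq_mul]
  ring

/-- the imaginary quadratic form -/
noncomputable def SQ (n : ℕ) [NeZero n] (q : ℝ) : QuadraticForm ℝ ((Fin n ⊕ Fin n → ℝ) × ℝ) :=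
  ∑ r : Fin n, (q • QuadraticMap.linMulLin xx (zz (r + 1) - ze r) +
    (-π) • QuadraticMap.linMulLin (zz r - zz (r + 1)) (ze r))

lemma SQ_apply (q : ℝ) (v : (Fin n ⊕ Fin n → ℝ) × ℝ) : SQ n q v =
    ∑ r : Fin n, (q * (v.2 * (v.1 (Sum.inl (r + 1)) - v.1 (Sum.inr r))) -
      π * ((v.1 (Sum.inl r) - v.1 (Sum.inl (r + 1))) * v.1 (Sum.inr r))) := by
  unfold SQ
  rw [sum_apply]
  refine Finset.sum_congr rfl fun r _ => ?_
  simp only [add_apply, smul_apply, QuadraticMap.linMulLin_apply,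
    LinearMap.sub_apply, zz_apply, ze_apply, xx_apply, smul_eq_mul]
  ring

lemma RQ_pos {c κ A : ℝ} (hc : 0 ≤ c) (hκ : 0 < κ) (hA : 0 < A) : (RQ n c κ A).PosDef := by
  intro v hv
  rw [RQ_apply]
  have h0 : ∀ r : Fin n, 0 ≤ c * ((v.1 (Sum.inl r) - v.1 (Sum.inr r)) ^ 2 +
      (v.1 (Sum.inl (r + 1)) - v.1 (Sum.inr r)) ^ 2) +
      κ * (v.1 (Sum.inl (r + 1)) ^ 2 + v.1 (Sum.inr r) ^ 2) + A * v.2 ^ 2 := by
    intro r
    positivity
  apply Finset.sum_pos' (fun r _ => h0 r)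
  by_contra hneg
  push Not at hneg
  apply hv
  have h1 : ∀ r : Fin n, v.1 (Sum.inl (r + 1)) = 0 ∧ v.1 (Sum.inr r) = 0 ∧ v.2 = 0 := by
    intro r
    have h2 := hneg r (Finset.mem_univ r)
    have h3 : 0 ≤ c * ((v.1 (Sum.inl r) - v.1 (Sum.inr r)) ^ 2 +
      (v.1 (Sum.inl (r + 1)) - v.1 (Sum.inr r)) ^ 2) := by positivity
    have h4 := sq_nonneg (v.1 (Sum.inl (r + 1)))
    have h5 := sq_nonneg (v.1 (Sum.inr r))
    have h6 := sq_nonneg v.2
    have h7 : 0 ≤ κ * (v.1 (Sum.inl (r + 1)) ^ 2 + v.1 (Sum.inr r) ^ 2) := by positivity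
    have h8 : 0 ≤ A * v.2 ^ 2 := by positivity
    have h9 : κ * (v.1 (Sum.inl (r + 1)) ^ 2 + v.1 (Sum.inr r) ^ 2) = 0 := by linarith
    have h10 : A * v.2 ^ 2 = 0 := by linarith
    have h11 : v.1 (Sum.inl (r + 1)) ^ 2 + v.1 (Sum.inr r) ^ 2 = 0 :=
      (mul_eq_zero.1 h9).resolve_left hκ.ne'
    have h12 : v.2 ^ 2 = 0 := (mul_eq_zero.1 h10).resolve_left hA.ne'
    refine ⟨?_, ?_, ?_⟩
    · exact pow_eq_zero_iff two_ne_zero |>.1 (by linarith)
    · exact pow_eq_zero_iff two_ne_zero |>.1 (by linarith)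
    · exact pow_eq_zero_iff two_ne_zero |>.1 h12
  apply Prod.ext
  · funext s
    rcases s with r | r
    · have h2 := (h1 (r - 1)).1
      rw [sub_add_cancel] at h2
      exact h2
    · exact (h1 r).2.1
  · exact (h1 0).2.2

lemma shift (f : Fin n → ℂ) : ∑ r, f (r + 1) = ∑ r, f r :=
  Equiv.sum_comp (Equiv.addRight (1 : Fin n)) f

omit [NeZero n] in
lemma key (N : ℂ) (f g : Fin n → ℂ) (c X Y Z : ℂ) :
    N * ((∑ r, f r) + X - Y - ((∑ _r : Fin n, c) - Y)) + Z * ∑ r, g r =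
      (∑ r, (N * (f r - c) + Z * g r)) + N * X := by
  rw [Finset.sum_add_distrib, ← Finset.mul_sum, ← Finset.mul_sum, Finset.sum_sub_distrib]
  ring

end forms

theorem t_PT : S_PT := by
  intro hP n _ hn
  obtain ⟨hg1, hg2, hC1, hC2, hy, hcosh, hb1, hb2, hcb, h4s, hlog, hK⟩ := hP n hn
  set y := yn n with hyd
  set b := bs n with hbd
  have hpi := Real.pi_pos
  -- the angles
  set d : ℝ := 1 - 2 * b with hd
  have hd0 : 0 < d := by rw [hd]; linarith
  have hd1 : d < 1 := by rw [hd]; linarith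
  have hd2 : d < 1 / 2 := by rw [hd]; linarith
  have hsd : Real.sin (π * d) = Real.sin (2 * π * b) := by
    have : π * d = π - 2 * π * b := by rw [hd]; ring
    rw [this, Real.sin_pi_sub]
  have hsd0 : 0 < Real.sin (π * d) := by
    apply Real.sin_pos_of_pos_of_lt_pi
    · positivity
    · nlinarith
  have hcd0 : 0 < Real.cos (π * d) := by
    apply Real.cos_pos_of_mem_Ioo
    constructor
    · nlinarith
    · nlinarith
  have hcosa : Real.cos (2 * π * (1 - b)) = Real.cos (2 * π * b) := by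
    have : 2 * π * (1 - b) = 2 * π - 2 * π * b := by ring
    rw [this, Real.cos_two_pi_sub]
  have hsina : Real.sin (2 * π * (1 - b)) = -Real.sin (2 * π * b) := by
    have : 2 * π * (1 - b) = 2 * π - 2 * π * b := by ring
    rw [this, Real.sin_two_pi_sub]
  have huu : uu y (1 - b) = uu y b := by
    unfold uu
    rw [hcosa]
  have hkk : kk y (1 - b) = kk y b := by
    unfold kk
    rw [huu]
  set Lg : ℝ := Real.log (2 * Real.sin (π * d)) with hLg
  have hl1 : ll y b = 2 * Lg := by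
    unfold ll uu
    rw [hcosh, hlog, hLg, hsd]
  have hl2 : ll y (1 - b) = 2 * Lg := by
    unfold ll
    rw [huu]
    exact hl1
  set K1 : ℝ := ∫ t in b..(1 - b), kk y t with hK1
  set K2 : ℝ := ∫ t in b..(1 - b), kk y t ^ 2 with hK2
  set s : ℝ := Real.sinh y with hs
  have hnK : (n : ℝ) * (2 * s * K1) = 1 := by
    rw [← hK, hK1, ← intervalIntegral.integral_const_mul]
    congr 1
    refine intervalIntegral.integral_congr fun t _ => ?_
    unfold kk uu
    rw [hcosh]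
    have h1 : 0 < Ch n - Real.cos (2 * π * t) := by
      have := Real.cos_le_one (2 * π * t)
      linarith
    have h2 : 0 < 2 * Ch n - 2 * Real.cos (2 * π * t) := by linarith
    show 2 * s * (2 * Ch n - 2 * Real.cos (2 * π * t))⁻¹ = s / (Ch n - Real.cos (2 * π * t))
    field_simp
  -- constants of the quadratic forms
  set c2 : ℝ := π * Real.cos (π * d) / Real.sin (π * d) with hc2
  have hc20 : 0 ≤ c2 := by positivity
  set κ : ℝ := 4 * π * Real.sin (2 * π * b) / uu y b with hκ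
  have hκ0 : 0 < κ := by
    rw [hκ, ← hsd]
    have := uu_pos hy b
    positivity
  set A : ℝ := Real.cosh y * K1 - 2 * s ^ 2 * K2 with hA
  have hA0 : 0 < A := by
    have hkc := kk_cont hy
    have h1 : A = ∫ t in b..(1 - b), (Real.cosh y * kk y t - 2 * s ^ 2 * kk y t ^ 2) := by
      rw [intervalIntegral.integral_sub, intervalIntegral.integral_const_mul,
        intervalIntegral.integral_const_mul]
      · exact Continuous.intervalIntegrable (by fun_prop) _ _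
      · exact Continuous.intervalIntegrable (by fun_prop) _ _
    rw [h1]
    apply intervalIntegral.intervalIntegral_pos_of_pos_on
    · exact Continuous.intervalIntegrable (by fun_prop) _ _
    · intro t ht
      have h2 : Real.cos (2 * π * t) < 0 := by
        apply Real.cos_neg_of_pi_div_two_lt_of_lt
        · nlinarith [ht.1]
        · nlinarith [ht.2]
      have h3 := uu_pos hy t
      have h4 : Real.cosh y ^ 2 = s ^ 2 + 1 := by rw [hs, Real.cosh_sq]
      have h5 : Real.cosh y * kk y t - 2 * s ^ 2 * kk y t ^ 2 =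
          (Real.cosh y * uu y t - 2 * s ^ 2) / uu y t ^ 2 := by
        unfold kk
        field_simp
      rw [h5]
      apply div_pos _ (by positivity)
      unfold uu
      have h6 : 0 < Real.cosh y := Real.cosh_pos y
      have h7 : Real.cosh y * (2 * Real.cosh y - 2 * Real.cos (2 * π * t)) - 2 * s ^ 2 =
          2 - 2 * (Real.cosh y * Real.cos (2 * π * t)) := by linear_combination 2 * h4
      rw [h7]
      have h8 : Real.cosh y * Real.cos (2 * π * t) < 0 := mul_neg_of_pos_of_neg h6 h2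
      linarith
    · linarith
  refine ⟨RQ n (c2 / 2) (κ / 2) A, SQ n (2 * s * kk y b), RQ_pos (by positivity) (by positivity)
    hA0, ?_⟩
  intro i j x v hi hj hx
  have hi' : ∀ r, Rt (fun N => (i N r : ℝ) / N - (1 - b)) (v.1 (Sum.inl r)) := hi
  have hj' : ∀ r, Rt (fun N => (j N r : ℝ) / N - b) (v.1 (Sum.inr r)) := hj
  have hx' : Rt x v.2 := hx
  -- the pieces
  have p1 : Tendsto (fun N : ℕ => ∑ r : Fin n, (((N : ℝ) *
      (Lc (d + (((i N r : ℝ) / N - (1 - b)) - ((j N r : ℝ) / N - b))) - Lc d +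
        Lg * (((i N r : ℝ) / N - (1 - b)) - ((j N r : ℝ) / N - b))) : ℝ) : ℂ)) atTop
      (𝓝 (∑ r : Fin n, ((-(c2 * (v.1 (Sum.inl r) - v.1 (Sum.inr r)) ^ 2 / 2) : ℝ) : ℂ))) :=
    tendsto_finsetSum _ fun r _ => tc (Lc_exp hd0 hd1 ((hi' r).sub (hj' r)))
  have p2 : Tendsto (fun N : ℕ => ∑ r : Fin n, (((N : ℝ) *
      (Lc (d + (((i N (r + 1) : ℝ) / N - (1 - b)) - ((j N r : ℝ) / N - b))) - Lc d +
        Lg * (((i N (r + 1) : ℝ) / N - (1 - b)) - ((j N r : ℝ) / N - b))) : ℝ) : ℂ)) atTop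
      (𝓝 (∑ r : Fin n, ((-(c2 * (v.1 (Sum.inl (r + 1)) - v.1 (Sum.inr r)) ^ 2 / 2) : ℝ) : ℂ))) :=
    tendsto_finsetSum _ fun r _ => tc (Lc_exp hd0 hd1 ((hi' (r + 1)).sub (hj' r)))
  have p3 := tendsto_finsetSum (Finset.univ : Finset (Fin n)) fun r _ =>
    main2 hy b (1 - b) hx' (hi' (r + 1)) (hj' r)
  have p4 : Tendsto (fun N : ℕ => ∑ r : Fin n, Complex.I * π * (((N : ℝ) *
      ((((i N r : ℝ) / N - (1 - b)) - ((i N (r + 1) : ℝ) / N - (1 - b))) *
        ((j N r : ℝ) / N - b)) : ℝ) : ℂ)) atTop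
      (𝓝 (∑ r : Fin n, Complex.I * π * (((v.1 (Sum.inl r) - v.1 (Sum.inl (r + 1))) *
        v.1 (Sum.inr r) : ℝ) : ℂ))) :=
    tendsto_finsetSum _ fun r _ =>
      (tc (((hi' r).sub (hi' (r + 1))).mul (hj' r))).const_mul (Complex.I * π)
  have p := ((p1.add p2).add p3).add p4
  have elim : ((∑ r : Fin n, ((-(c2 * (v.1 (Sum.inl r) - v.1 (Sum.inr r)) ^ 2 / 2) : ℝ) : ℂ)) +
      (∑ r : Fin n, ((-(c2 * (v.1 (Sum.inl (r + 1)) - v.1 (Sum.inr r)) ^ 2 / 2) : ℝ) : ℂ)) +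
      (∑ r : Fin n, (((4 * π * Real.sin (2 * π * (1 - b)) / uu y (1 - b) *
          v.1 (Sum.inl (r + 1)) ^ 2 / 2 -
        4 * π * Real.sin (2 * π * b) / uu y b * v.1 (Sum.inr r) ^ 2 / 2 -
        Real.cosh y * (∫ t in b..(1 - b), kk y t) * v.2 ^ 2 +
        2 * Real.sinh y ^ 2 * (∫ t in b..(1 - b), kk y t ^ 2) * v.2 ^ 2 : ℝ) : ℂ) -
        Complex.I * ((2 * Real.sinh y * v.2 * (kk y (1 - b) * v.1 (Sum.inl (r + 1)) -
          kk y b * v.1 (Sum.inr r)) : ℝ) : ℂ))) +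
      ∑ r : Fin n, Complex.I * π * (((v.1 (Sum.inl r) - v.1 (Sum.inl (r + 1))) *
        v.1 (Sum.inr r) : ℝ) : ℂ)) =
      -(RQ n (c2 / 2) (κ / 2) A v : ℂ) - Complex.I * (SQ n (2 * s * kk y b) v : ℂ) := by
    rw [RQ_apply, SQ_apply, ← Finset.sum_add_distrib, ← Finset.sum_add_distrib,
      ← Finset.sum_add_distrib, Complex.ofReal_sum, Complex.ofReal_sum, Finset.mul_sum,
      ← Finset.sum_neg_distrib, ← Finset.sum_sub_distrib]
    refine Finset.sum_congr rfl fun r _ => ?_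
    rw [hsina, huu, hkk, ← hK1, ← hK2, ← hs]
    have e1 : 4 * π * -Real.sin (2 * π * b) / uu y b = -κ := by
      rw [hκ]
      ring
    rw [e1, ← hκ, hA]
    push_cast
    ring
  rw [elim] at p
  refine p.congr' ?_
  filter_upwards [eventually_ge_atTop 1] with N hN
  have hN0 : (N : ℝ) ≠ 0 := by
    have : 0 < N := hN
    positivity
  have hNc : (N : ℂ) ≠ 0 := by exact_mod_cast hN0
  -- the arguments
  have a1 : ∀ r, d + (((i N r : ℝ) / N - (1 - b)) - ((j N r : ℝ) / N - b)) =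
      ((i N r : ℝ) - j N r) / N := by
    intro r
    rw [hd]
    ring
  have a2 : ∀ r, d + (((i N (r + 1) : ℝ) / N - (1 - b)) - ((j N r : ℝ) / N - b)) =
      ((i N (r + 1) : ℝ) - j N r) / N := by
    intro r
    rw [hd]
    ring
  have a3 : ∀ r, b + ((j N r : ℝ) / N - b) = (j N r : ℝ) / N := fun r => by ring
  have a4 : ∀ r, 1 - b + ((i N (r + 1) : ℝ) / N - (1 - b)) = (i N (r + 1) : ℝ) / N :=
    fun r => by ring
  simp only [a1, a2, a3, a4]
  -- the growth rate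
  have hDn : (Dn n : ℂ) = ∑ _r : Fin n, (2 * (Lc d : ℂ) +
      ((∫ t in b..(1 - b), ll y t : ℝ) : ℂ)) - (y : ℂ) := by
    have e1 : Dn n = (n : ℝ) * (2 * Lc d + ∫ t in b..(1 - b), ll y t) - y := by
      unfold Dn Es Ep
      have e2 : (∫ t in (bs n)..(1 - bs n), lf 0 (yn n) t) = ∫ t in b..(1 - b), ll y t :=
        intervalIntegral.integral_congr fun t _ => lf_zero hy t
      rw [e2]
      have e3 : 1 - bs n - bs n = d := by rw [hd, ← hbd]; ring
      rw [e3]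
      ring
    rw [e1, Finset.sum_const, Finset.card_univ, Fintype.card_fin, nsmul_eq_mul]
    push_cast
    ring
  have hsh1 := shift (n := n) (fun r => (i N r : ℂ))
  have hsumn : ∀ z : ℂ, ∑ _r : Fin n, z = (n : ℂ) * z := by
    intro z
    rw [Finset.sum_const, Finset.card_univ, Fintype.card_fin, nsmul_eq_mul]
  have hnKc : (n : ℂ) * (2 * (s : ℂ) * (K1 : ℂ)) = 1 := by exact_mod_cast hnK
  have hXe : Xe n N (i N) (j N) (x N) =
      ∑ r : Fin n, (((Lc (((i N r : ℝ) - j N r) / N) : ℂ) +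
        (Lc (((i N (r + 1) : ℝ) - j N r) / N) : ℂ)) +
      (∫ t in ((j N r : ℝ) / N)..((i N (r + 1) : ℝ) / N), clf (x N) y t)) +
      Complex.I * (x N : ℂ) - (y : ℂ) := by
    unfold Xe
    simp only [Finset.sum_add_distrib, ← hyd]
  rw [hXe, hDn]
  have hkey := key (N : ℂ) (fun r : Fin n => ((Lc (((i N r : ℝ) - j N r) / N) : ℂ) +
        (Lc (((i N (r + 1) : ℝ) - j N r) / N) : ℂ)) +
      (∫ t in ((j N r : ℝ) / N)..((i N (r + 1) : ℝ) / N), clf (x N) y t))
    (fun r => ((i N r : ℂ) - i N (r + 1)) * j N r)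
    (2 * (Lc d : ℂ) + ((∫ t in b..(1 - b), ll y t : ℝ) : ℂ)) (Complex.I * (x N : ℂ)) (y : ℂ)
    (Complex.I * π / N)
  rw [hkey, ← Finset.sum_add_distrib, ← Finset.sum_add_distrib, ← Finset.sum_add_distrib]
  -- compare termwise up to a telescoping sum
  have hterm : ∀ r : Fin n,
      ((((N : ℝ) * (Lc (((i N r : ℝ) - j N r) / N) - Lc d +
        Lg * (((i N r : ℝ) / N - (1 - b)) - ((j N r : ℝ) / N - b))) : ℝ) : ℂ) +
      (((N : ℝ) * (Lc (((i N (r + 1) : ℝ) - j N r) / N) - Lc d +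
        Lg * (((i N (r + 1) : ℝ) / N - (1 - b)) - ((j N r : ℝ) / N - b))) : ℝ) : ℂ) +
      (N : ℂ) * ((∫ t in ((j N r : ℝ) / N)..((i N (r + 1) : ℝ) / N), clf (x N) y t) -
        ((∫ t in b..(1 - b), ll y t : ℝ) : ℂ) -
        ((ll y (1 - b) * ((i N (r + 1) : ℝ) / N - (1 - b)) -
          ll y b * ((j N r : ℝ) / N - b) : ℝ) : ℂ) +
        2 * Complex.I * (Real.sinh y : ℂ) * ((∫ t in b..(1 - b), kk y t : ℝ) : ℂ) * (x N : ℂ)) +
      Complex.I * π * (((N : ℝ) *
        ((((i N r : ℝ) / N - (1 - b)) - ((i N (r + 1) : ℝ) / N - (1 - b))) *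
        ((j N r : ℝ) / N - b)) : ℝ) : ℂ)) =
      ((N : ℂ) * (((Lc (((i N r : ℝ) - j N r) / N) : ℂ) +
        (Lc (((i N (r + 1) : ℝ) - j N r) / N) : ℂ)) +
      (∫ t in ((j N r : ℝ) / N)..((i N (r + 1) : ℝ) / N), clf (x N) y t) - (2 * (Lc d : ℂ) +
      ((∫ t in b..(1 - b), ll y t : ℝ) : ℂ))) +
      Complex.I * π / N * (((i N r : ℂ) - i N (r + 1)) * j N r)) +
      ((Lg : ℂ) - Complex.I * π * b) * ((i N r : ℂ) - i N (r + 1)) +
      Complex.I * (2 * (s : ℂ) * (K1 : ℂ)) * ((N : ℂ) * (x N : ℂ)) := by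
    intro r
    rw [hl1, hl2, ← hK1, ← hs]
    push_cast
    field_simp
    ring
  rw [Finset.sum_congr rfl fun r _ => hterm r, Finset.sum_add_distrib, Finset.sum_add_distrib,
    ← Finset.mul_sum, Finset.sum_sub_distrib, hsh1, sub_self, mul_zero, add_zero, hsumn]
  linear_combination (Complex.I * ((N : ℂ) * (x N : ℂ))) * hnKc

end Pool.Agent.Y180.TK
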