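import Mathlib

set_option autoImplicit false

/-!
Project TK, part PT: second order expansions along sequences which are `O(1/√N)`.
-/

namespace Pool.Agent.Y180.TK

open Filter Topology MeasureTheory Set
open scoped Real

/-- `√N h_N → α` -/
def Rt (h : ℕ → ℝ) (α : ℝ) : Prop := Tendsto (fun N : ℕ => √(N : ℝ) * h N) atTop (𝓝 α)

lemma sqrt_inv : Tendsto (fun N : ℕ => (√(N : ℝ))⁻¹) atTop (𝓝 0) :=
  tendsto_inv_atTop_zero.comp (Real.tendsto_sqrt_atTop.comp tendsto_natCast_atTop_atTop)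

lemma sqrt_pos {N : ℕ} (hN : 1 ≤ N) : 0 < √(N : ℝ) := Real.sqrt_pos.2 (by exact_mod_cast hN)

lemma Rt.zero {h : ℕ → ℝ} {α : ℝ} (hh : Rt h α) : Tendsto h atTop (𝓝 0) := by
  have h1 := sqrt_inv.mul hh
  rw [zero_mul] at h1
  refine h1.congr' ?_
  filter_upwards [eventually_ge_atTop 1] with N hN
  rw [← mul_assoc, inv_mul_cancel₀ (sqrt_pos hN).ne', one_mul]

lemma Rt.mul {h g : ℕ → ℝ} {α β : ℝ} (hh : Rt h α) (hg : Rt g β) :
    Tendsto (fun N : ℕ => (N : ℝ) * (h N * g N)) atTop (𝓝 (α * β)) := by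
  refine (Tendsto.mul hh hg).congr fun N => ?_
  have h1 := Real.mul_self_sqrt (Nat.cast_nonneg (α := ℝ) N)
  linear_combination (h N * g N) * h1

lemma Rt.sub {h g : ℕ → ℝ} {α β : ℝ} (hh : Rt h α) (hg : Rt g β) :
    Rt (fun N => h N - g N) (α - β) := by
  refine (Tendsto.sub hh hg).congr fun N => ?_
  ring

/-- second order expansion of an integral -/
lemma int2 {f : ℝ → ℝ} {t0 f' : ℝ} (hf : HasDerivAt f f' t0)
    (hc : ∀ᶠ t in 𝓝 t0, ContinuousAt f t) {h : ℕ → ℝ} {α : ℝ} (hh : Rt h α) :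
    Tendsto (fun N : ℕ => (N : ℝ) * ((∫ t in t0..(t0 + h N), f t) - f t0 * h N)) atTop
      (𝓝 (f' * α ^ 2 / 2)) := by
  have h0 := hh.zero
  have hsq := hh.mul hh
  -- the remainder
  have hrem : Tendsto (fun N : ℕ => (N : ℝ) * ∫ t in t0..(t0 + h N),
      (f t - f t0 - (t - t0) * f')) atTop (𝓝 0) := by
    rw [Metric.tendsto_nhds]
    intro η hη
    have hα1 : 0 < α * α + 1 := by nlinarith [mul_self_nonneg α]
    have hε : 0 < η / (α * α + 1) := div_pos hη hα1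
    have h1 := (hasDerivAt_iff_isLittleO.1 hf).def hε
    obtain ⟨δ, hδ, h2⟩ := Metric.eventually_nhds_iff.1 h1
    have h3 : ∀ᶠ N in atTop, dist (h N) 0 < δ := (Metric.tendsto_nhds.1 h0) δ hδ
    have h4 : ∀ᶠ N : ℕ in atTop, (N : ℝ) * (h N * h N) < α * α + 1 :=
      hsq.eventually_lt_const (by linarith)
    filter_upwards [h3, h4] with N h5 h6
    rw [Real.dist_eq, sub_zero] at h5 ⊢
    have h7 : ‖∫ t in t0..(t0 + h N), (f t - f t0 - (t - t0) * f')‖ ≤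
        (η / (α * α + 1) * |h N|) * |t0 + h N - t0| := by
      apply intervalIntegral.norm_integral_le_of_norm_le_const
      intro t ht
      have h8 : |t - t0| ≤ |h N| := by
        have h9 := Set.abs_sub_left_of_mem_uIcc (Set.uIoc_subset_uIcc ht)
        rw [abs_sub_comm] at h9
        rw [abs_sub_comm]
        simpa [abs_sub_comm] using h9
      have h10 := h2 (y := t) (by rw [Real.dist_eq]; exact h8.trans_lt h5)
      rw [smul_eq_mul] at h10
      refine h10.trans ?_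
      rw [Real.norm_eq_abs]
      exact mul_le_mul_of_nonneg_left h8 hε.le
    rw [add_sub_cancel_left] at h7
    rw [abs_mul, abs_of_nonneg (Nat.cast_nonneg _)]
    rw [Real.norm_eq_abs] at h7
    have h11 : (N : ℝ) * |∫ t in t0..(t0 + h N), (f t - f t0 - (t - t0) * f')| ≤
        η / (α * α + 1) * ((N : ℝ) * (h N * h N)) := by
      calc _ ≤ (N : ℝ) * ((η / (α * α + 1) * |h N|) * |h N|) :=
            mul_le_mul_of_nonneg_left h7 (Nat.cast_nonneg _)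
        _ = η / (α * α + 1) * ((N : ℝ) * (|h N| * |h N|)) := by ring
        _ = _ := by rw [abs_mul_abs_self]
    refine h11.trans_lt ?_
    calc η / (α * α + 1) * ((N : ℝ) * (h N * h N)) < η / (α * α + 1) * (α * α + 1) :=
          mul_lt_mul_of_pos_left h6 hε
      _ = η := by
          field_simp
  have hquad : Tendsto (fun N : ℕ => f' / 2 * ((N : ℝ) * (h N * h N))) atTop
      (𝓝 (f' / 2 * (α * α))) := hsq.const_mul _
  have hsum := hrem.add hquad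
  have e1 : 0 + f' / 2 * (α * α) = f' * α ^ 2 / 2 := by ring
  rw [e1] at hsum
  refine hsum.congr' ?_
  obtain ⟨δ, hδ, h2⟩ := Metric.eventually_nhds_iff.1 hc
  have h3 : ∀ᶠ N in atTop, dist (h N) 0 < δ := (Metric.tendsto_nhds.1 h0) δ hδ
  filter_upwards [h3] with N h5
  rw [Real.dist_eq, sub_zero] at h5
  have hint : IntervalIntegrable f volume t0 (t0 + h N) := by
    apply ContinuousOn.intervalIntegrable
    intro t ht
    apply ContinuousAt.continuousWithinAt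
    apply h2
    rw [Real.dist_eq]
    have h9 := Set.abs_sub_left_of_mem_uIcc ht
    have h10 : |t - t0| ≤ |h N| := by
      simpa [abs_sub_comm] using h9
    exact h10.trans_lt h5
  have hi1 : IntervalIntegrable (fun _ : ℝ => f t0) volume t0 (t0 + h N) :=
    intervalIntegrable_const
  have hi2 : IntervalIntegrable (fun t : ℝ => (t - t0) * f') volume t0 (t0 + h N) :=
    Continuous.intervalIntegrable (by fun_prop) _ _
  rw [intervalIntegral.integral_sub (hint.sub hi1) hi2, intervalIntegral.integral_sub hint hi1,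
    intervalIntegral.integral_const, intervalIntegral.integral_mul_const,
    intervalIntegral.integral_comp_sub_right (fun t => t) t0, integral_id]
  simp only [smul_eq_mul]
  ring

/-- first order expansion of an integral -/
lemma int1 {f : ℝ → ℝ} {t0 f' : ℝ} (hf : HasDerivAt f f' t0)
    (hc : ∀ᶠ t in 𝓝 t0, ContinuousAt f t) {h : ℕ → ℝ} {α : ℝ} (hh : Rt h α) :
    Tendsto (fun N : ℕ => √(N : ℝ) * ∫ t in t0..(t0 + h N), f t) atTop (𝓝 (f t0 * α)) := by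
  have h1 := sqrt_inv.mul (int2 hf hc hh)
  rw [zero_mul] at h1
  have h2 := h1.add (Tendsto.const_mul (f t0) hh)
  rw [zero_add] at h2
  refine h2.congr' ?_
  filter_upwards [eventually_ge_atTop 1] with N hN
  have h3 := sqrt_pos hN
  have h4 := Real.mul_self_sqrt (Nat.cast_nonneg (α := ℝ) N)
  have h5 : (√(N : ℝ))⁻¹ * (N : ℝ) = √(N : ℝ) := by
    rw [inv_mul_eq_iff_eq_mul₀ h3.ne']
    exact h4.symm
  rw [← mul_assoc, h5]
  ring

lemma cos_exp {x : ℕ → ℝ} {ξ : ℝ} (hx : Rt x ξ) :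
    Tendsto (fun N : ℕ => (N : ℝ) * (Real.cos (x N) - 1)) atTop (𝓝 (-(ξ ^ 2 / 2))) := by
  have h1 := int2 (f := Real.sin) (t0 := 0) (f' := 1) (by simpa using Real.hasDerivAt_sin 0)
    (Eventually.of_forall fun t => Real.continuous_sin.continuousAt) hx
  have h2 := h1.neg
  rw [one_mul] at h2
  refine h2.congr fun N => ?_
  rw [integral_sin]
  simp
  ring

lemma sin_exp {x : ℕ → ℝ} {ξ : ℝ} (hx : Rt x ξ) :
    Tendsto (fun N : ℕ => (N : ℝ) * (Real.sin (x N) - x N)) atTop (𝓝 0) := by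
  have h1 := int2 (f := Real.cos) (t0 := 0) (f' := 0) (by simpa using Real.hasDerivAt_cos 0)
    (Eventually.of_forall fun t => Real.continuous_cos.continuousAt) hx
  rw [zero_mul, zero_div] at h1
  refine h1.congr fun N => ?_
  rw [integral_cos]
  simp

lemma log_exp {w : ℂ} (hw : ‖w‖ ≤ 1 / 2) : ‖Complex.log (1 + w) - (w - w ^ 2 / 2)‖ ≤ ‖w‖ ^ 3 := by
  have h1 := Complex.norm_log_sub_logTaylor_le 2 (z := w) (by linarith)
  have h2 : Complex.logTaylor (2 + 1) w = w - w ^ 2 / 2 := by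
    simp [Complex.logTaylor, Finset.sum_range_succ]
    ring
  rw [h2] at h1
  refine h1.trans ?_
  have h3 : (1 - ‖w‖)⁻¹ ≤ 2 := by
    rw [inv_le_comm₀ (by linarith) (by norm_num)]
    linarith
  have h4 : 0 ≤ ‖w‖ ^ 3 := by positivity
  have h5 : ‖w‖ ^ (2 + 1) * (1 - ‖w‖)⁻¹ / (↑(2 : ℕ) + 1) ≤ ‖w‖ ^ 3 * 2 / 3 := by
    norm_num
    gcongr
  linarith

/-- the increment of `2 cos` in the direction of the real axis -/
noncomputable def dl (y x : ℝ) : ℂ := 2 * Complex.cos (x + y * Complex.I) - 2 * (Real.cosh y : ℂ)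

lemma dl_eq (y x : ℝ) : dl y x = 2 * (Real.cosh y : ℂ) * ((Real.cos x - 1 : ℝ) : ℂ) -
    2 * Complex.I * (Real.sinh y : ℂ) * (Real.sin x : ℂ) := by
  unfold dl
  rw [Complex.cos_add_mul_I]
  push_cast
  ring

lemma tc {f : ℕ → ℝ} {a : ℝ} (h : Tendsto f atTop (𝓝 a)) :
    Tendsto (fun N => ((f N : ℝ) : ℂ)) atTop (𝓝 (a : ℂ)) :=
  (Complex.continuous_ofReal.tendsto a).comp h

/-- (d2) -/
lemma dl2 (y : ℝ) {x : ℕ → ℝ} {ξ : ℝ} (hx : Rt x ξ) :
    Tendsto (fun N : ℕ => (N : ℂ) * (dl y (x N) + 2 * Complex.I * (Real.sinh y : ℂ) * (x N : ℂ)))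
      atTop (𝓝 (-((Real.cosh y * ξ ^ 2 : ℝ) : ℂ))) := by
  have h1 := (tc (cos_exp hx)).const_mul (2 * (Real.cosh y : ℂ))
  have h2 := (tc (sin_exp hx)).const_mul (2 * Complex.I * (Real.sinh y : ℂ))
  have h3 := h1.sub h2
  have e1 : 2 * (Real.cosh y : ℂ) * ((-(ξ ^ 2 / 2) : ℝ) : ℂ) -
      2 * Complex.I * (Real.sinh y : ℂ) * ((0 : ℝ) : ℂ) = -((Real.cosh y * ξ ^ 2 : ℝ) : ℂ) := by
    push_cast
    ring
  rw [e1] at h3
  refine h3.congr fun N => ?_
  rw [dl_eq]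
  push_cast
  ring

/-- (d1) -/
lemma dl1 (y : ℝ) {x : ℕ → ℝ} {ξ : ℝ} (hx : Rt x ξ) :
    Tendsto (fun N : ℕ => ((√(N : ℝ) : ℝ) : ℂ) * dl y (x N)) atTop
      (𝓝 (-(2 * Complex.I * (Real.sinh y : ℂ) * (ξ : ℂ)))) := by
  have h1 := (tc sqrt_inv).mul (dl2 y hx)
  rw [Complex.ofReal_zero, zero_mul] at h1
  have h2 := (tc hx).const_mul (2 * Complex.I * (Real.sinh y : ℂ))
  have h3 := h1.sub h2
  rw [zero_sub] at h3
  refine h3.congr' ?_
  filter_upwards [eventually_ge_atTop 1] with N hN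
  have h4 := sqrt_pos hN
  have h5 : ((√(N : ℝ) : ℝ) : ℂ)⁻¹ * (N : ℂ) = ((√(N : ℝ) : ℝ) : ℂ) := by
    have h6 : ((√(N : ℝ) : ℝ) : ℂ) ≠ 0 := by exact_mod_cast h4.ne'
    rw [inv_mul_eq_iff_eq_mul₀ h6, ← Complex.ofReal_mul, Real.mul_self_sqrt (Nat.cast_nonneg _)]
    push_cast
    rfl
  rw [Complex.ofReal_inv, ← mul_assoc, h5]
  push_cast
  ring

lemma dl0 (y : ℝ) {x : ℕ → ℝ} {ξ : ℝ} (hx : Rt x ξ) :
    Tendsto (fun N : ℕ => dl y (x N)) atTop (𝓝 0) := by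
  have h1 := (tc sqrt_inv).mul (dl1 y hx)
  rw [Complex.ofReal_zero, zero_mul] at h1
  refine h1.congr' ?_
  filter_upwards [eventually_ge_atTop 1] with N hN
  have h4 := sqrt_pos hN
  have h6 : ((√(N : ℝ) : ℝ) : ℂ) ≠ 0 := by exact_mod_cast h4.ne'
  rw [Complex.ofReal_inv, ← mul_assoc, inv_mul_cancel₀ h6, one_mul]

lemma sq_sqrt_c (N : ℕ) : ((√(N : ℝ) : ℝ) : ℂ) * ((√(N : ℝ) : ℝ) : ℂ) = (N : ℂ) := by
  rw [← Complex.ofReal_mul, Real.mul_self_sqrt (Nat.cast_nonneg _)]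
  push_cast
  rfl

/-- (d3) -/
lemma dl3 (y : ℝ) {x : ℕ → ℝ} {ξ : ℝ} (hx : Rt x ξ) :
    Tendsto (fun N : ℕ => (N : ℂ) * dl y (x N) ^ 2) atTop
      (𝓝 (-((4 * Real.sinh y ^ 2 * ξ ^ 2 : ℝ) : ℂ))) := by
  have h1 := (dl1 y hx).mul (dl1 y hx)
  have e1 : -(2 * Complex.I * (Real.sinh y : ℂ) * (ξ : ℂ)) *
      -(2 * Complex.I * (Real.sinh y : ℂ) * (ξ : ℂ)) =
      -((4 * Real.sinh y ^ 2 * ξ ^ 2 : ℝ) : ℂ) := by
    push_cast
    linear_combination (4 * Complex.sinh y ^ 2 * (ξ : ℂ) ^ 2) * Complex.I_mul_I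
  rw [e1] at h1
  refine h1.congr fun N => ?_
  linear_combination (dl y (x N) ^ 2) * sq_sqrt_c N

/-- (d4) -/
lemma dl4 (y : ℝ) {x : ℕ → ℝ} {ξ : ℝ} (hx : Rt x ξ) :
    Tendsto (fun N : ℕ => (N : ℝ) * ‖dl y (x N)‖ ^ 3) atTop (𝓝 0) := by
  have h1 := (dl3 y hx).norm.mul (dl0 y hx).norm
  rw [norm_zero, mul_zero] at h1
  refine h1.congr fun N => ?_
  rw [norm_mul, norm_pow, Complex.norm_natCast]
  ring

end Pool.Agent.Y180.TK
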