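import Pool.Agent.Y180.TK.Pt1
import Pool.Agent.Y472.K.Defs

set_option autoImplicit false

/-!
Project TK, part PT: the integral of the complex logarithm along sequences.
-/

namespace Pool.Agent.Y180.TK

open Filter Topology MeasureTheory Set
open Pool.Agent.Y472.K (clf lf Lc)
open scoped Real

/-- `2 cosh y - 2 cos 2 π t` -/
noncomputable def uu (y t : ℝ) : ℝ := 2 * Real.cosh y - 2 * Real.cos (2 * π * t)

/-- its inverse -/
noncomputable def kk (y t : ℝ) : ℝ := (uu y t)⁻¹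

/-- its logarithm -/
noncomputable def ll (y t : ℝ) : ℝ := Real.log (uu y t)

lemma base_pos {y : ℝ} (hy : 0 < y) : 0 < 2 * Real.cosh y - 2 := by
  have := Real.one_lt_cosh.2 hy.ne'
  linarith

lemma uu_ge (y t : ℝ) : 2 * Real.cosh y - 2 ≤ uu y t := by
  unfold uu
  linarith [Real.cos_le_one (2 * π * t)]

lemma uu_pos {y : ℝ} (hy : 0 < y) (t : ℝ) : 0 < uu y t := (base_pos hy).trans_le (uu_ge y t)

lemma uu_cont (y : ℝ) : Continuous (uu y) := by
  unfold uu
  fun_prop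

lemma kk_cont {y : ℝ} (hy : 0 < y) : Continuous (kk y) :=
  (uu_cont y).inv₀ fun t => (uu_pos hy t).ne'

lemma ll_cont {y : ℝ} (hy : 0 < y) : Continuous (ll y) :=
  (uu_cont y).log fun t => (uu_pos hy t).ne'

lemma uu_deriv (y t : ℝ) : HasDerivAt (uu y) (4 * π * Real.sin (2 * π * t)) t := by
  have h1 : HasDerivAt (fun t : ℝ => 2 * π * t) (2 * π) t := by
    simpa using (hasDerivAt_id t).const_mul (2 * π)
  have h2 := ((h1.cos).const_mul 2).const_sub (2 * Real.cosh y)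
  refine HasDerivAt.congr_deriv (f := uu y) h2 ?_
  ring

lemma ll_deriv {y : ℝ} (hy : 0 < y) (t : ℝ) :
    HasDerivAt (ll y) (4 * π * Real.sin (2 * π * t) / uu y t) t :=
  (uu_deriv y t).log (uu_pos hy t).ne'

lemma kk_deriv {y : ℝ} (hy : 0 < y) (t : ℝ) :
    HasDerivAt (kk y) (-(4 * π * Real.sin (2 * π * t)) / uu y t ^ 2) t :=
  (uu_deriv y t).inv (uu_pos hy t).ne'

lemma kk_le {y : ℝ} (hy : 0 < y) (t : ℝ) : kk y t ≤ (2 * Real.cosh y - 2)⁻¹ :=
  inv_anti₀ (base_pos hy) (uu_ge y t)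

lemma kk_pos {y : ℝ} (hy : 0 < y) (t : ℝ) : 0 < kk y t := inv_pos.2 (uu_pos hy t)

lemma lf_zero {y : ℝ} (hy : 0 < y) (t : ℝ) : lf 0 y t = ll y t := by
  unfold lf ll
  congr 1
  have h1 : (2 : ℂ) * Complex.cos (((0 : ℝ) : ℂ) + y * Complex.I) -
      2 * (Real.cos (2 * π * t) : ℂ) = ((uu y t : ℝ) : ℂ) := by
    rw [Complex.ofReal_zero, zero_add, Complex.cos_mul_I]
    unfold uu
    push_cast
    ring
  rw [h1, Complex.norm_real, Real.norm_of_nonneg (uu_pos hy t).le]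

lemma w_norm {y : ℝ} (hy : 0 < y) {x : ℝ} (t : ℝ) :
    ‖dl y x * (kk y t : ℂ)‖ ≤ ‖dl y x‖ * (2 * Real.cosh y - 2)⁻¹ := by
  rw [norm_mul, Complex.norm_real, Real.norm_of_nonneg (kk_pos hy t).le]
  exact mul_le_mul_of_nonneg_left (kk_le hy t) (norm_nonneg _)

lemma clf_eq {y : ℝ} (hy : 0 < y) {x : ℝ} (hx : ‖dl y x‖ * (2 * Real.cosh y - 2)⁻¹ ≤ 1 / 2) (t : ℝ) :
    clf x y t = (ll y t : ℂ) + Complex.log (1 + dl y x * (kk y t : ℂ)) := by
  have h1 := (w_norm hy (x := x) t).trans hx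
  have h2 : (1 : ℂ) + dl y x * (kk y t : ℂ) ≠ 0 := by
    intro h
    have h3 : dl y x * (kk y t : ℂ) = -1 := by linear_combination h
    rw [h3] at h1
    norm_num at h1
  have h4 : (2 : ℂ) * Complex.cos (x + y * Complex.I) - 2 * (Real.cos (2 * π * t) : ℂ) =
      (uu y t : ℂ) * (1 + dl y x * (kk y t : ℂ)) := by
    have h5 : (uu y t : ℂ) * (kk y t : ℂ) = 1 := by
      unfold kk
      rw [← Complex.ofReal_mul, mul_inv_cancel₀ (uu_pos hy t).ne', Complex.ofReal_one]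
    have h6 : (uu y t : ℂ) = 2 * (Real.cosh y : ℂ) - 2 * (Real.cos (2 * π * t) : ℂ) := by
      unfold uu
      push_cast
      ring
    have h7 : (uu y t : ℂ) * (1 + dl y x * (kk y t : ℂ)) =
        (uu y t : ℂ) + dl y x := by linear_combination (dl y x) * h5
    rw [h7, h6]
    unfold dl
    ring
  unfold clf ll
  rw [h4, Complex.log_ofReal_mul (uu_pos hy t) h2]

lemma log_cont {y : ℝ} (hy : 0 < y) {x : ℝ} (hx : ‖dl y x‖ * (2 * Real.cosh y - 2)⁻¹ ≤ 1 / 2) :
    Continuous (fun t => Complex.log (1 + dl y x * (kk y t : ℂ))) := by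
  apply Continuous.clog
  · have := kk_cont hy
    fun_prop
  · intro t
    apply Complex.mem_slitPlane_of_norm_lt_one
    have h1 := (w_norm hy (x := x) t).trans hx
    linarith

/-- expansion of the integral -/
lemma int_clf {y : ℝ} (hy : 0 < y) {x : ℝ} (hx : ‖dl y x‖ * (2 * Real.cosh y - 2)⁻¹ ≤ 1 / 2)
    (b a : ℝ) : ‖(∫ t in b..a, clf x y t) - (((∫ t in b..a, ll y t : ℝ) : ℂ) +
      dl y x * ((∫ t in b..a, kk y t : ℝ) : ℂ) -
      dl y x ^ 2 / 2 * ((∫ t in b..a, kk y t ^ 2 : ℝ) : ℂ))‖ ≤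
    (‖dl y x‖ * (2 * Real.cosh y - 2)⁻¹) ^ 3 * |a - b| := by
  have hkc := kk_cont hy
  have hlc := ll_cont hy
  have hgc := log_cont hy hx
  have h1 : (∫ t in b..a, clf x y t) = ((∫ t in b..a, ll y t : ℝ) : ℂ) +
      ∫ t in b..a, Complex.log (1 + dl y x * (kk y t : ℂ)) := by
    rw [← intervalIntegral.integral_ofReal, ← intervalIntegral.integral_add]
    · exact intervalIntegral.integral_congr fun t _ => clf_eq hy hx t
    · exact (Continuous.intervalIntegrable (by fun_prop) _ _)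
    · exact hgc.intervalIntegrable _ _
  have h2 : dl y x * ((∫ t in b..a, kk y t : ℝ) : ℂ) -
      dl y x ^ 2 / 2 * ((∫ t in b..a, kk y t ^ 2 : ℝ) : ℂ) =
      ∫ t in b..a, (dl y x * (kk y t : ℂ) - (dl y x * (kk y t : ℂ)) ^ 2 / 2) := by
    rw [← intervalIntegral.integral_ofReal, ← intervalIntegral.integral_ofReal,
      ← intervalIntegral.integral_const_mul, ← intervalIntegral.integral_const_mul,
      ← intervalIntegral.integral_sub]
    · refine intervalIntegral.integral_congr fun t _ => ?_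
      push_cast
      ring
    · exact (Continuous.intervalIntegrable (by fun_prop) _ _)
    · exact (Continuous.intervalIntegrable (by fun_prop) _ _)
  have h3 : (∫ t in b..a, clf x y t) - (((∫ t in b..a, ll y t : ℝ) : ℂ) +
      dl y x * ((∫ t in b..a, kk y t : ℝ) : ℂ) -
      dl y x ^ 2 / 2 * ((∫ t in b..a, kk y t ^ 2 : ℝ) : ℂ)) =
      ∫ t in b..a, (Complex.log (1 + dl y x * (kk y t : ℂ)) -
        (dl y x * (kk y t : ℂ) - (dl y x * (kk y t : ℂ)) ^ 2 / 2)) := by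
    rw [intervalIntegral.integral_sub, ← h2, h1]
    · ring
    · exact hgc.intervalIntegrable _ _
    · exact (Continuous.intervalIntegrable (by fun_prop) _ _)
  rw [h3]
  apply intervalIntegral.norm_integral_le_of_norm_le_const
  intro t _
  have h4 := w_norm hy (x := x) t
  refine (log_exp (h4.trans hx)).trans ?_
  exact pow_le_pow_left₀ (norm_nonneg _) h4 3

/-- moving the end points -/
lemma move {f : ℝ → ℝ} (hf : Continuous f) (b a h g : ℝ) :
    ∫ t in (b + g)..(a + h), f t = (∫ t in b..a, f t) + (∫ t in a..(a + h), f t) -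
      ∫ t in b..(b + g), f t := by
  have h1 := intervalIntegral.integral_add_adjacent_intervals
    (hf.intervalIntegrable (μ := volume) b (b + g)) (hf.intervalIntegrable (b + g) (a + h))
  have h2 := intervalIntegral.integral_add_adjacent_intervals
    (hf.intervalIntegrable (μ := volume) b a) (hf.intervalIntegrable a (a + h))
  linarith

/-- the main expansion -/
lemma main2 {y : ℝ} (hy : 0 < y) (b a : ℝ) {x h g : ℕ → ℝ} {ξ α β : ℝ} (hx : Rt x ξ)
    (hh : Rt h α) (hg : Rt g β) :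
    Tendsto (fun N : ℕ => (N : ℂ) * ((∫ t in (b + g N)..(a + h N), clf (x N) y t) -
      ((∫ t in b..a, ll y t : ℝ) : ℂ) - ((ll y a * h N - ll y b * g N : ℝ) : ℂ) +
      2 * Complex.I * (Real.sinh y : ℂ) * ((∫ t in b..a, kk y t : ℝ) : ℂ) * (x N : ℂ))) atTop
      (𝓝 (((4 * π * Real.sin (2 * π * a) / uu y a * α ^ 2 / 2 -
        4 * π * Real.sin (2 * π * b) / uu y b * β ^ 2 / 2 -
        Real.cosh y * (∫ t in b..a, kk y t) * ξ ^ 2 +
        2 * Real.sinh y ^ 2 * (∫ t in b..a, kk y t ^ 2) * ξ ^ 2 : ℝ) : ℂ) -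
        Complex.I * ((2 * Real.sinh y * ξ * (kk y a * α - kk y b * β) : ℝ) : ℂ))) := by
  have hkc := kk_cont hy
  have hlc := ll_cont hy
  have hk2 : Continuous (fun t => kk y t ^ 2) := hkc.pow 2
  -- the pieces
  have p1 := (tc (int2 (ll_deriv hy a) (Eventually.of_forall fun t => hlc.continuousAt) hh)).sub
    (tc (int2 (ll_deriv hy b) (Eventually.of_forall fun t => hlc.continuousAt) hg))
  have p2 := (dl2 y hx).mul_const (((∫ t in b..a, kk y t : ℝ) : ℂ))
  have p3 := (dl1 y hx).mul ((tc (int1 (kk_deriv hy a) (Eventually.of_forall fun t =>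
    hkc.continuousAt) hh)).sub (tc (int1 (kk_deriv hy b) (Eventually.of_forall fun t =>
    hkc.continuousAt) hg)))
  have q1 : ∀ (c : ℝ) {w : ℕ → ℝ}, Tendsto w atTop (𝓝 0) →
      Tendsto (fun N => ∫ t in c..(c + w N), kk y t ^ 2) atTop (𝓝 0) := by
    intro c w hw
    have h1 : Continuous (fun z : ℝ => ∫ t in c..z, kk y t ^ 2) :=
      intervalIntegral.continuous_primitive (fun a b => hk2.intervalIntegrable a b) c
    have h2 : Tendsto (fun N => c + w N) atTop (𝓝 (c + 0)) := tendsto_const_nhds.add hw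
    have h3 : Tendsto (fun N => ∫ t in c..(c + w N), kk y t ^ 2) atTop
        (𝓝 (∫ t in c..(c + 0), kk y t ^ 2)) := (h1.tendsto (c + 0)).comp h2
    rw [add_zero, intervalIntegral.integral_same] at h3
    exact h3
  have q2 : Tendsto (fun N => ∫ t in (b + g N)..(a + h N), kk y t ^ 2) atTop
      (𝓝 (∫ t in b..a, kk y t ^ 2)) := by
    have h1 := ((q1 a hh.zero).const_add (∫ t in b..a, kk y t ^ 2)).sub (q1 b hg.zero)
    rw [add_zero, sub_zero] at h1
    exact h1.congr fun N => (move hk2 b a (h N) (g N)).symm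
  have p4 := ((dl3 y hx).div_const 2).mul (tc q2)
  have hsmall : ∀ᶠ N in atTop, ‖dl y (x N)‖ * (2 * Real.cosh y - 2)⁻¹ ≤ 1 / 2 := by
    have h1 := (dl0 y hx).norm.mul_const (2 * Real.cosh y - 2)⁻¹
    rw [norm_zero, zero_mul] at h1
    exact (h1.eventually_lt_const (by norm_num : (0:ℝ) < 1 / 2)).mono fun N hN => hN.le
  have p5 : Tendsto (fun N : ℕ => (N : ℂ) * ((∫ t in (b + g N)..(a + h N), clf (x N) y t) -
      (((∫ t in (b + g N)..(a + h N), ll y t : ℝ) : ℂ) +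
      dl y (x N) * ((∫ t in (b + g N)..(a + h N), kk y t : ℝ) : ℂ) -
      dl y (x N) ^ 2 / 2 * ((∫ t in (b + g N)..(a + h N), kk y t ^ 2 : ℝ) : ℂ)))) atTop
      (𝓝 0) := by
    have h1 : Tendsto (fun N : ℕ => ((N : ℝ) * ‖dl y (x N)‖ ^ 3) *
        ((2 * Real.cosh y - 2)⁻¹ ^ 3 * |a + h N - (b + g N)|)) atTop (𝓝 0) := by
      have h2 : Tendsto (fun N => |a + h N - (b + g N)|) atTop (𝓝 |a + 0 - (b + 0)|) :=
        ((tendsto_const_nhds.add hh.zero).sub (tendsto_const_nhds.add hg.zero)).abs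
      have h3 := (dl4 y hx).mul (h2.const_mul ((2 * Real.cosh y - 2)⁻¹ ^ 3))
      rw [zero_mul] at h3
      exact h3
    refine squeeze_zero_norm' ?_ h1
    filter_upwards [hsmall] with N hN
    rw [norm_mul, Complex.norm_natCast]
    calc _ ≤ (N : ℝ) * ((‖dl y (x N)‖ * (2 * Real.cosh y - 2)⁻¹) ^ 3 *
          |a + h N - (b + g N)|) :=
          mul_le_mul_of_nonneg_left (int_clf hy hN _ _) (Nat.cast_nonneg _)
      _ = _ := by ring
  have p := (((p1.add p2).add p3).sub p4).add p5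
  have elim : (((4 * π * Real.sin (2 * π * a) / uu y a * α ^ 2 / 2 : ℝ) : ℂ) -
      ((4 * π * Real.sin (2 * π * b) / uu y b * β ^ 2 / 2 : ℝ) : ℂ) +
      -((Real.cosh y * ξ ^ 2 : ℝ) : ℂ) * ((∫ t in b..a, kk y t : ℝ) : ℂ) +
      -(2 * Complex.I * (Real.sinh y : ℂ) * (ξ : ℂ)) *
        (((kk y a * α : ℝ) : ℂ) - ((kk y b * β : ℝ) : ℂ)) -
      -((4 * Real.sinh y ^ 2 * ξ ^ 2 : ℝ) : ℂ) / 2 *
        ((∫ t in b..a, kk y t ^ 2 : ℝ) : ℂ) + 0) =
      (((4 * π * Real.sin (2 * π * a) / uu y a * α ^ 2 / 2 -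
        4 * π * Real.sin (2 * π * b) / uu y b * β ^ 2 / 2 -
        Real.cosh y * (∫ t in b..a, kk y t) * ξ ^ 2 +
        2 * Real.sinh y ^ 2 * (∫ t in b..a, kk y t ^ 2) * ξ ^ 2 : ℝ) : ℂ) -
        Complex.I * ((2 * Real.sinh y * ξ * (kk y a * α - kk y b * β) : ℝ) : ℂ)) := by
    push_cast
    ring
  rw [elim] at p
  refine p.congr fun N => ?_
  rw [move hlc b a (h N) (g N), move hkc b a (h N) (g N)]
  have hN := sq_sqrt_c N
  push_cast
  linear_combination (dl y (x N) * ((∫ t in a..(a + h N), kk y t : ℝ) : ℂ) -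
    dl y (x N) * ((∫ t in b..(b + g N), kk y t : ℝ) : ℂ)) * hN

end Pool.Agent.Y180.TK
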